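import Pool.Agent.Helper81.ZS.Base

/-!
# Module 15: counting subsets of small rooted sets
-/

namespace Pool.Agent.Helper81.ZS

open Finset
open scoped Classical
open Pool.Agent.Helper38.ZS

noncomputable section

theorem diag_le_one {ι : Type} [Fintype ι] {P : ι → ι → ℝ} (hP : IsPr P) (b : ι) :
    ∑ a, P a b ^ 2 ≤ 1 := by
  have h1 : ∑ a, P a b ^ 2 = P b b := by
    rw [← hP.idem b b]
    apply sum_congr rfl
    intro a _
    rw [hP.symm b a, sq]
  have h2 : P b b ^ 2 ≤ ∑ a, P a b ^ 2 :=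
    single_le_sum (f := fun a => P a b ^ 2) (fun a _ => sq_nonneg _) (mem_univ b)
  rw [h1] at h2 ⊢
  nlinarith

theorem deg_le {ι : Type} [Fintype ι] {P : ι → ι → ℝ} (hP : IsPr P) (K : ℝ) (b : ι) :
    #(univ.filter (fun a => Adj P K a b)) ≤ ⌊Real.exp (2 * K)⌋₊ := by
  apply Nat.le_floor
  have h1 : (#(univ.filter (fun a => Adj P K a b)) : ℝ) * Real.exp (-K) ^ 2 ≤ 1 := by
    calc (#(univ.filter (fun a => Adj P K a b)) : ℝ) * Real.exp (-K) ^ 2
        = ∑ a ∈ univ.filter (fun a => Adj P K a b), Real.exp (-K) ^ 2 := by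
          rw [sum_const, nsmul_eq_mul]
      _ ≤ ∑ a ∈ univ.filter (fun a => Adj P K a b), P a b ^ 2 := by
          apply sum_le_sum
          intro a ha
          rw [← sq_abs (P a b)]
          exact pow_le_pow_left₀ (Real.exp_pos _).le (mem_filter.1 ha).2 2
      _ ≤ ∑ a, P a b ^ 2 :=
          sum_le_sum_of_subset_of_nonneg (filter_subset _ _) fun a _ _ => sq_nonneg _
      _ ≤ 1 := diag_le_one hP b
  have h2 : Real.exp (-K) ^ 2 * Real.exp (2 * K) = 1 := by
    rw [← Real.exp_nat_mul, ← Real.exp_add]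
    push_cast
    rw [show 2 * -K + 2 * K = 0 by ring, Real.exp_zero]
  calc (#(univ.filter (fun a => Adj P K a b)) : ℝ)
      = (#(univ.filter (fun a => Adj P K a b)) : ℝ) * Real.exp (-K) ^ 2 * Real.exp (2 * K) := by
        rw [mul_assoc, h2, mul_one]
    _ ≤ 1 * Real.exp (2 * K) := mul_le_mul_of_nonneg_right h1 (Real.exp_pos _).le
    _ = Real.exp (2 * K) := one_mul _

theorem exp_neg_two_le {x : ℝ} (h0 : 0 ≤ x) (h1 : x ≤ 1 / 2) : Real.exp (-(2 * x)) ≤ 1 - x := by
  have h2 : 1 + 2 * x ≤ Real.exp (2 * x) := by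
    have := Real.add_one_le_exp (2 * x)
    linarith
  rw [Real.exp_neg, inv_le_comm₀ (Real.exp_pos _) (by linarith)]
  refine le_trans ?_ h2
  rw [inv_le_comm₀ (by linarith) (by linarith)]
  rw [inv_eq_one_div, div_le_iff₀ (by linarith)]
  nlinarith

/-- 15. counting subsets of small rooted sets -/
theorem st_sub (h13 : ST_PERC) : ST_SUB := by
  refine ⟨3, ?_⟩
  intro K hK ι _ P Q N M F hP hN hQ hF
  set p : ℝ := Real.exp (-(3 * K)) with hp
  set D : ℕ := ⌊Real.exp (2 * K)⌋₊ with hD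
  have hp0 : 0 < p := Real.exp_pos _
  have heK : 4 ≤ Real.exp K := by
    have := Real.add_one_le_exp K
    linarith
  have hinv : Real.exp (-K) ≤ 1 / 4 := by
    rw [Real.exp_neg, inv_le_comm₀ (Real.exp_pos _) (by norm_num)]
    linarith
  have hpK : p ≤ Real.exp (-K) := Real.exp_le_exp.2 (by linarith)
  have hp1 : p ≤ 1 / 4 := hpK.trans hinv
  have hDp : (D : ℝ) * p ≤ 1 / 4 := by
    have h1 : (D : ℝ) ≤ Real.exp (2 * K) := Nat.floor_le (Real.exp_pos _).le
    calc (D : ℝ) * p ≤ Real.exp (2 * K) * p := mul_le_mul_of_nonneg_right h1 hp0.le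
      _ = Real.exp (-K) := by rw [hp, ← Real.exp_add]; congr 1; ring
      _ ≤ 1 / 4 := hinv
  have h13 := h13 ι (Adj P K) Q D p (fun b => deg_le hP K b) hp0.le (by linarith)
  set c : ℝ := Real.exp (4 * K * N + 2 * M * Real.exp (-K)) with hc
  set U : Finset (Finset ι) :=
    (univ.filter (fun W : Finset ι => Rooted (Adj P K) Q W)).filter (fun W => (#W : ℝ) ≤ N) with hU
  have hFU : F ⊆ U.biUnion powerset := by
    intro S hS
    obtain ⟨W, h1, h2, h3⟩ := hF S hS
    rw [mem_biUnion]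
    refine ⟨W, ?_, mem_powerset.2 h1⟩
    rw [hU, mem_filter, mem_filter]
    exact ⟨⟨mem_univ _, h3⟩, h2⟩
  have h1 : (#F : ℝ) ≤ ∑ W ∈ U, (2 : ℝ) ^ (#W) := by
    have h2 : #F ≤ ∑ W ∈ U, 2 ^ (#W) := by
      refine (card_le_card hFU).trans (card_biUnion_le.trans ?_)
      apply sum_le_sum
      intro W _
      rw [card_powerset]
    exact_mod_cast h2
  have h2 : ∀ W ∈ U, (2 : ℝ) ^ (#W) ≤ c * (p ^ (#W) * (1 - p) ^ (D * #W + #Q)) := by
    intro W hW
    rw [hU, mem_filter] at hW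
    have hWN := hW.2
    have e1 : (1 / 2 : ℝ) ≤ (1 - p) ^ D := by
      have h3 := one_add_mul_le_pow (a := -p) (by linarith) D
      have h4 : (1 + -p) = 1 - p := by ring
      rw [h4] at h3
      linarith
    have e2 : (1 / 2 : ℝ) ^ (#W) ≤ (1 - p) ^ (D * #W) := by
      rw [pow_mul]
      exact pow_le_pow_left₀ (by norm_num) e1 _
    have e3 : Real.exp (-(2 * M * Real.exp (-K))) ≤ (1 - p) ^ (#Q) := by
      have h3 : Real.exp (-(2 * p)) ≤ 1 - p := exp_neg_two_le hp0.le (by linarith)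
      have h4 : Real.exp (-(2 * p)) ^ (#Q) ≤ (1 - p) ^ (#Q) :=
        pow_le_pow_left₀ (Real.exp_pos _).le h3 _
      refine le_trans ?_ h4
      rw [← Real.exp_nat_mul]
      apply Real.exp_le_exp.2
      have h5 : (#Q : ℝ) * p ≤ M * Real.exp (-K) := by
        calc (#Q : ℝ) * p ≤ M * Real.exp (2 * K) * p := mul_le_mul_of_nonneg_right hQ hp0.le
          _ = M * (Real.exp (2 * K) * p) := by ring
          _ = M * Real.exp (-K) := by
            congr 1
            rw [hp, ← Real.exp_add]; congr 1; ring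
      nlinarith
    have e4 : (4 * Real.exp (3 * K)) ^ (#W) ≤ Real.exp (4 * K * N) := by
      have h3 : 4 * Real.exp (3 * K) ≤ Real.exp (4 * K) := by
        calc 4 * Real.exp (3 * K) ≤ Real.exp K * Real.exp (3 * K) :=
              mul_le_mul_of_nonneg_right heK (Real.exp_pos _).le
          _ = Real.exp (4 * K) := by rw [← Real.exp_add]; congr 1; ring
      refine (pow_le_pow_left₀ (by positivity) h3 _).trans ?_
      rw [← Real.exp_nat_mul]
      apply Real.exp_le_exp.2
      have := mul_le_mul_of_nonneg_right hWN (show 0 ≤ 4 * K by linarith)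
      linarith
    have hcs : c = Real.exp (4 * K * N) * Real.exp (2 * M * Real.exp (-K)) := by
      rw [hc, Real.exp_add]
    have e5 : (2 : ℝ) ^ (#W) = (4 * Real.exp (3 * K)) ^ (#W) * (p ^ (#W) * (1 / 2) ^ (#W)) := by
      rw [← mul_pow, ← mul_pow]
      congr 1
      have : Real.exp (3 * K) * p = 1 := by
        rw [hp, ← Real.exp_add, show 3 * K + -(3 * K) = 0 by ring, Real.exp_zero]
      linear_combination (-2 : ℝ) * this
    have e6 : Real.exp (2 * M * Real.exp (-K)) * Real.exp (-(2 * M * Real.exp (-K))) = 1 := by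
      rw [← Real.exp_add, add_neg_cancel, Real.exp_zero]
    have hp' : 0 < 1 - p := by linarith
    calc (2 : ℝ) ^ (#W) = (4 * Real.exp (3 * K)) ^ (#W) * (p ^ (#W) * (1 / 2) ^ (#W)) := e5
      _ ≤ Real.exp (4 * K * N) * (p ^ (#W) * (1 - p) ^ (D * #W)) := by
          apply mul_le_mul e4 _ (by positivity) (by positivity)
          exact mul_le_mul_of_nonneg_left e2 (by positivity)
      _ = Real.exp (4 * K * N) * Real.exp (2 * M * Real.exp (-K)) *
            (p ^ (#W) * ((1 - p) ^ (D * #W) * Real.exp (-(2 * M * Real.exp (-K))))) := by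
          linear_combination (-(Real.exp (4 * K * N) * (p ^ (#W) * (1 - p) ^ (D * #W)))) * e6
      _ ≤ Real.exp (4 * K * N) * Real.exp (2 * M * Real.exp (-K)) *
            (p ^ (#W) * ((1 - p) ^ (D * #W) * (1 - p) ^ (#Q))) := by
          apply mul_le_mul_of_nonneg_left _ (by positivity)
          apply mul_le_mul_of_nonneg_left _ (by positivity)
          exact mul_le_mul_of_nonneg_left e3 (by positivity)
      _ = c * (p ^ (#W) * (1 - p) ^ (D * #W + #Q)) := by
          rw [← hcs, pow_add]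
  have hc0 : 0 < c := Real.exp_pos _
  have hp'' : 0 ≤ 1 - p := by linarith
  calc (#F : ℝ) ≤ ∑ W ∈ U, (2 : ℝ) ^ (#W) := h1
    _ ≤ ∑ W ∈ U, c * (p ^ (#W) * (1 - p) ^ (D * #W + #Q)) := sum_le_sum h2
    _ = c * ∑ W ∈ U, p ^ (#W) * (1 - p) ^ (D * #W + #Q) := by rw [mul_sum]
    _ ≤ c * ∑ W ∈ univ.filter (fun W : Finset ι => Rooted (Adj P K) Q W),
          p ^ (#W) * (1 - p) ^ (D * #W + #Q) := by
        apply mul_le_mul_of_nonneg_left _ hc0.le
        exact sum_le_sum_of_subset_of_nonneg (filter_subset _ _)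
          fun W _ _ => mul_nonneg (pow_nonneg hp0.le _) (pow_nonneg hp'' _)
    _ ≤ c * 1 := mul_le_mul_of_nonneg_left h13 hc0.le
    _ = Real.exp (4 * K * N + 2 * M * Real.exp (-K)) := mul_one _

end

end Pool.Agent.Helper81.ZS
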