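import Pool.Agent.Helper81.ZS.Step

/-!
# Module 12: the top of the tower
-/

namespace Pool.Agent.Helper81.ZS

open Finset
open scoped Classical
open Pool.Agent.Helper38.ZS

noncomputable section

theorem ap_rs {ι : Type} [Fintype ι] (P : ι → ι → ℝ) (g : ι → ℝ) (B : Finset ι) (j : ι) :
    ap P (rs B g) j = ∑ k ∈ B, P j k * g k := by
  unfold ap rs
  rw [← sum_filter_add_sum_filter_not univ (fun k => k ∈ B)]
  have h1 : ∑ k ∈ univ.filter (fun k => k ∉ B), P j k * (if k ∈ B then g k else 0) = 0 := by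
    apply sum_eq_zero
    intro k hk
    rw [if_neg (mem_filter.1 hk).2, mul_zero]
  rw [h1, add_zero]
  have h2 : univ.filter (fun k => k ∈ B) = B := by
    ext k; simp
  rw [h2]
  apply sum_congr rfl
  intro k hk
  rw [if_pos hk]

theorem II_eq {ι : Type} [Fintype ι] {P : ι → ι → ℝ} (hP : ∀ i j, P i j = P j i) (g : ι → ℝ)
    (B Y : Finset ι) : II P g B Y = ∑ l ∈ Y, g l * ap P (rs B g) l := by
  unfold II
  rw [sum_comm]
  apply sum_congr rfl
  intro l _
  rw [ap_rs, mul_sum]
  apply sum_congr rfl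
  intro k _
  rw [hP k l]
  ring

theorem II_le_near {ι : Type} [Fintype ι] {P : ι → ι → ℝ} {K : ℝ} (hP : ∀ i j, P i j = P j i)
    (g : ι → ℝ) {Z B : Finset ι} (hB : B ⊆ Z) :
    II P g B (Z \ B) ≤ near P K Z g B + Real.exp (-K) * l1 g Z ^ 2 := by
  rw [II_eq hP]
  rw [← sum_filter_add_sum_filter_not (Z \ B) (fun l => ∃ k ∈ B, Adj P K l k)]
  apply add_le_add
  · unfold near bd
    apply sum_le_sum
    intro l _
    rw [← abs_mul]
    exact le_abs_self _
  · have h1 : ∀ l ∈ (Z \ B).filter (fun l => ¬ ∃ k ∈ B, Adj P K l k),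
        g l * ap P (rs B g) l ≤ |g l| * (Real.exp (-K) * l1 g Z) := by
      intro l hl
      rw [mem_filter] at hl
      refine (le_abs_self _).trans ?_
      rw [abs_mul]
      apply mul_le_mul_of_nonneg_left _ (abs_nonneg _)
      rw [ap_rs]
      refine (abs_sum_le_sum_abs _ _).trans ?_
      calc ∑ k ∈ B, |P l k * g k| ≤ ∑ k ∈ B, Real.exp (-K) * |g k| := by
            apply sum_le_sum
            intro k hk
            rw [abs_mul]
            apply mul_le_mul_of_nonneg_right _ (abs_nonneg _)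
            by_contra hcon
            exact hl.2 ⟨k, hk, (not_le.1 hcon).le⟩
        _ = Real.exp (-K) * l1 g B := by rw [← mul_sum]; rfl
        _ ≤ Real.exp (-K) * l1 g Z :=
            mul_le_mul_of_nonneg_left (l1_mono g hB) (Real.exp_pos _).le
    refine (sum_le_sum h1).trans ?_
    rw [← sum_mul]
    have h2 : ∑ l ∈ (Z \ B).filter (fun l => ¬ ∃ k ∈ B, Adj P K l k), |g l| ≤ l1 g Z :=
      sum_le_sum_of_subset_of_nonneg ((filter_subset _ _).trans sdiff_subset)
        fun i _ _ => abs_nonneg _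
    have h3 : 0 ≤ Real.exp (-K) * l1 g Z := mul_nonneg (Real.exp_pos _).le (l1_nonneg g Z)
    calc (∑ l ∈ (Z \ B).filter (fun l => ¬ ∃ k ∈ B, Adj P K l k), |g l|)
          * (Real.exp (-K) * l1 g Z) ≤ l1 g Z * (Real.exp (-K) * l1 g Z) :=
          mul_le_mul_of_nonneg_right h2 h3
      _ = Real.exp (-K) * l1 g Z ^ 2 := by ring

theorem far_num {K m C x : ℝ} (hm : 1 ≤ m) (hC : 1 ≤ C) (hK : 3 * Real.log m ≤ K)
    (hx0 : 0 ≤ x) (hx : x ≤ (C * m) ^ (20 / 19 : ℝ)) :
    Real.exp (-K) * x ^ 2 ≤ C ^ 3 * Real.exp (-(K / 4)) := by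
  have hm0 : 0 < m := by linarith
  have hC0 : 0 < C := by linarith
  have h1 : x ^ 2 ≤ C ^ 3 * m ^ (9 / 4 : ℝ) := by
    calc x ^ 2 ≤ ((C * m) ^ (20 / 19 : ℝ)) ^ 2 := pow_le_pow_left₀ hx0 hx 2
      _ = (C * m) ^ (40 / 19 : ℝ) := by
        rw [← Real.rpow_natCast, ← Real.rpow_mul (by positivity)]
        norm_num
      _ = C ^ (40 / 19 : ℝ) * m ^ (40 / 19 : ℝ) := Real.mul_rpow hC0.le hm0.le
      _ ≤ C ^ (3 : ℝ) * m ^ (9 / 4 : ℝ) := by
        apply mul_le_mul
        · exact Real.rpow_le_rpow_of_exponent_le hC (by norm_num)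
        · exact Real.rpow_le_rpow_of_exponent_le hm (by norm_num)
        · positivity
        · positivity
      _ = C ^ 3 * m ^ (9 / 4 : ℝ) := by
        congr 1
        exact_mod_cast Real.rpow_natCast C 3
  have h2 : Real.exp (-K) = Real.exp (-(K / 4)) * Real.exp (-(3 * K / 4)) := by
    rw [← Real.exp_add]; congr 1; ring
  have h3 : Real.exp (-(3 * K / 4)) * m ^ (9 / 4 : ℝ) ≤ 1 := by
    rw [Real.rpow_def_of_pos hm0, ← Real.exp_add]
    rw [Real.exp_le_one_iff]
    linarith
  calc Real.exp (-K) * x ^ 2 ≤ Real.exp (-K) * (C ^ 3 * m ^ (9 / 4 : ℝ)) :=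
        mul_le_mul_of_nonneg_left h1 (Real.exp_pos _).le
    _ = C ^ 3 * Real.exp (-(K / 4)) * (Real.exp (-(3 * K / 4)) * m ^ (9 / 4 : ℝ)) := by
        rw [h2]; ring
    _ ≤ C ^ 3 * Real.exp (-(K / 4)) * 1 := mul_le_mul_of_nonneg_left h3 (by positivity)
    _ = C ^ 3 * Real.exp (-(K / 4)) := mul_one _

/-- 12. the top of the tower -/
theorem st_top (h9 : ST_PACK) (h10 : ST_GREEDY) : ST_TOP := by
  intro γ κ C hγ0 hγ1 hκ0 hκ1 hC
  obtain ⟨C2, Rp, hC2, hRp, h9⟩ := h9 γ κ C hγ0 hγ1 hκ0 hκ1 hC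
  refine ⟨max (max 2 (8 * C ^ 3 / (κ * γ))) (max Rp ((200 * C2) ^ 2)), ?_⟩
  intro K hK ι _ P Z S g m k hP hm hpc hKm hSZ hk hS
  have hK2 : 2 ≤ K := le_trans (le_trans (le_max_left _ _) (le_max_left _ _)) hK
  have hKγ : 8 * C ^ 3 / (κ * γ) ≤ K :=
    le_trans (le_trans (le_max_right _ _) (le_max_left _ _)) hK
  have hKR : (Rp : ℝ) ≤ K := le_trans (le_trans (le_max_left _ _) (le_max_right _ _)) hK
  have hKC : (200 * C2) ^ 2 ≤ K := le_trans (le_trans (le_max_right _ _) (le_max_right _ _)) hK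
  have hm0 : 0 < m := by linarith
  have hK0 : 0 < K := by linarith
  have hκγ : 0 < κ * γ := mul_pos hκ0 hγ0
  have hl1 : l1 g Z ≤ (C * m) ^ (20 / 19 : ℝ) :=
    (l1_le_nu g Z).trans (Real.rpow_le_rpow (nu_nonneg g Z) hpc.nub (by norm_num))
  have hfar : Real.exp (-K) * l1 g Z ^ 2 ≤ κ * γ / 2 := by
    refine (far_num hm hC hKm (l1_nonneg g Z) hl1).trans ?_
    have h1 : K / 4 ≤ Real.exp (K / 4) := by
      have := Real.add_one_le_exp (K / 4)
      linarith
    rw [Real.exp_neg]
    have h2 : C ^ 3 * (Real.exp (K / 4))⁻¹ = C ^ 3 / Real.exp (K / 4) := rfl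
    rw [h2, div_le_iff₀ (Real.exp_pos _)]
    rw [div_le_iff₀ hκγ] at hKγ
    have h3 : κ * γ / 2 * (K / 4) ≤ κ * γ / 2 * Real.exp (K / 4) :=
      mul_le_mul_of_nonneg_left h1 (by positivity)
    nlinarith
  -- the boundary dominates
  have hnear : ∀ B : Finset ι, B ⊆ Z → B.Nonempty → B ≠ Z →
      II P g B (Z \ B) / 8 < near P K Z g B := by
    intro B hB hne hBZ
    have h1 := link_ge hγ0 hγ1 hκ0 hpc.low hpc.link hB hne hBZ
    have h2 := II_le_near (K := K) hP.symm g hB
    linarith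
  have hbd : ∀ B : Finset ι, B ⊆ Z → B.Nonempty → B ≠ Z → bd P K Z B ≠ ∅ := by
    intro B hB hne hBZ h0
    have h1 := link_ge hγ0 hγ1 hκ0 hpc.low hpc.link hB hne hBZ
    have h2 := hnear B hB hne hBZ
    unfold near at h2
    rw [h0, sum_empty] at h2
    linarith
  have hreach : ∀ s ∈ S, ∃ r : ℕ, ¬ Disjoint (ball P K Z s r) {k} := by
    intro s hs
    by_contra hcon
    push Not at hcon
    obtain ⟨r, hr⟩ := exists_bd_empty (P := P) (K := K) (hSZ hs)
    refine hbd _ (ball_subset (hSZ hs) r) ball_nonempty ?_ hr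
    intro h
    have h1 := hcon r
    rw [disjoint_singleton_right, h] at h1
    exact h1 hk
  have hR0 : Rp ≤ ⌈K ^ 90⌉₊ := by
    have h1 : (Rp : ℝ) ≤ K ^ 90 := by
      refine hKR.trans ?_
      calc K = K ^ 1 := (pow_one K).symm
        _ ≤ K ^ 90 := pow_le_pow_right₀ (by linarith) (by norm_num)
    exact_mod_cast h1.trans (Nat.le_ceil _)
  -- packing when all the balls have at most half of the weight
  have hpack : ∀ (R : ℕ) (A : Finset ι), ⌈K ^ 90⌉₊ ≤ R → A ⊆ Z →
      (∀ a ∈ A, ∀ b ∈ A, a ≠ b → Disjoint (ball P K Z a R) (ball P K Z b R)) →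
      (∀ a ∈ A, 2 * nu g (ball P K Z a R) ≤ nu g Z) →
      (#A : ℝ) ≤ C2 * m * (R : ℝ) ^ (-(21 / 20 : ℝ)) := by
    intro R A hR hA hdis hhalf
    refine h9 ι P K Z A g m R hP hm hpc (hR0.trans hR) hA hdis ?_
    intro a ha r hr
    have hsub : ball P K Z a r ⊆ Z := ball_subset (hA ha) r
    have h1 : 2 * nu g (ball P K Z a r) ≤ nu g Z := by
      have h2 : nu g (ball P K Z a r) ≤ nu g (ball P K Z a R) := nu_mono g (ball_mono hr.le)
      have h3 := hhalf a ha
      linarith
    have h2 : γ ≤ nu g (ball P K Z a r) :=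
      nu_ge hγ0 hγ1 ball_nonempty fun i hi => hpc.low i (hsub hi)
    have hne : ball P K Z a r ≠ Z := by
      intro h
      rw [h] at h1 h2
      linarith
    exact ⟨link_half hγ0 hγ1 hpc.low hpc.link hsub ball_nonempty h1,
      hnear _ hsub ball_nonempty hne⟩
  obtain ⟨W, hSW, -, hrt, hW⟩ := h10 ι P K Z S {k} (C2 * m) ⌈K ^ 90⌉₊ hP.symm
    (le_trans hRp hR0) (by positivity) hSZ hreach (by
      intro R A hR hA hdis hT2
      by_cases hbig : ∀ a ∈ A, 2 * nu g (ball P K Z a R) ≤ nu g Z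
      · exact hpack R A hR (hA.trans hSZ) hdis hbig
      · push Not at hbig
        obtain ⟨a0, ha0, hbig⟩ := hbig
        have hkA : k ∉ A := by
          intro h
          have h1 := hT2 k h
          rw [disjoint_singleton_right] at h1
          exact h1 mem_ball_self
        have hkd : ∀ a ∈ A, Disjoint (ball P K Z k R) (ball P K Z a R) := by
          intro a ha
          by_contra hcon
          have h1 := mem_ball_two hP.symm hk hcon
          have h2 := hT2 a ha
          rw [disjoint_singleton_right] at h2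
          exact h2 h1
        have hke : k ∉ A.erase a0 := fun h => hkA (mem_of_mem_erase h)
        have hcard : #A = #(insert k (A.erase a0)) := by
          rw [card_insert_of_notMem hke, card_erase_of_mem ha0]
          have : 0 < #A := card_pos.2 ⟨a0, ha0⟩
          omega
        rw [hcard]
        have hsmall : ∀ a ∈ Z, Disjoint (ball P K Z a R) (ball P K Z a0 R) →
            2 * nu g (ball P K Z a R) ≤ nu g Z := by
          intro a ha hd
          have h1 := nu_disj g (ball_subset (P := P) (K := K) ha R)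
            (ball_subset (P := P) (K := K) (hSZ (hA ha0)) R) hd
          linarith
        apply hpack R _ hR
        · intro a ha
          rcases mem_insert.1 ha with h | h
          · rw [h]; exact hk
          · exact hSZ (hA (mem_of_mem_erase h))
        · intro a ha b hb hab
          rcases mem_insert.1 ha with h | h
          · rcases mem_insert.1 hb with h' | h'
            · exact absurd (h.trans h'.symm) hab
            · rw [h]; exact hkd b (mem_of_mem_erase h')
          · rcases mem_insert.1 hb with h' | h'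
            · rw [h']; exact (hkd a (mem_of_mem_erase h)).symm
            · exact hdis a (mem_of_mem_erase h) b (mem_of_mem_erase h') hab
        · intro a ha
          rcases mem_insert.1 ha with h | h
          · rw [h]; exact hsmall k hk (hkd a0 ha0)
          · exact hsmall a (hSZ (hA (mem_of_mem_erase h)))
              (hdis a (mem_of_mem_erase h) a0 ha0 (ne_of_mem_erase h)))
  exact ⟨W, hSW, hW.trans (forest_num hK2 hKC hC2 hm0.le hS), hrt⟩

end

end Pool.Agent.Helper81.ZS
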