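import Pool.Agent.Helper81.ZS.Base

/-!
# Module 11: one step down the tower
-/

namespace Pool.Agent.Helper81.ZS

open Finset
open scoped Classical
open Pool.Agent.Helper38.ZS

noncomputable section

/-- `R0 = ⌈K ^ 90⌉` : the numbers of the greedy forest -/
theorem forest_num {K m C2 s : ℝ} (hK : 2 ≤ K) (hKC : (200 * C2) ^ 2 ≤ K) (hC2 : 1 ≤ C2)
    (hm : 0 ≤ m) (hs : s ≤ m / K ^ 100) :
    s * (2 * (⌈K ^ 90⌉₊ : ℝ) + 2)
      + 100 * (C2 * m) * (⌈K ^ 90⌉₊ : ℝ) ^ (-(1 / 20 : ℝ)) ≤ m / K ^ 4 := by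
  have hK0 : 0 < K := by linarith
  have hK1 : 1 ≤ K := by linarith
  have hp : (1 : ℝ) ≤ K ^ 90 := one_le_pow₀ hK1
  have h1 : (⌈K ^ 90⌉₊ : ℝ) ≤ K ^ 90 + 1 := (Nat.ceil_lt_add_one (by positivity)).le
  have h2 : K ^ 90 ≤ (⌈K ^ 90⌉₊ : ℝ) := Nat.le_ceil _
  have h3 : s * (2 * (⌈K ^ 90⌉₊ : ℝ) + 2) ≤ m / K ^ 100 * (6 * K ^ 90) := by
    apply mul_le_mul hs (by linarith) (by positivity) (by positivity)
  have h4 : m / K ^ 100 * (6 * K ^ 90) = (m / K ^ 4) * (6 / K ^ 6) := by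
    field_simp
  have h5 : 6 / K ^ 6 ≤ 1 / 2 := by
    rw [div_le_iff₀ (by positivity)]
    have : (2 : ℝ) ^ 6 ≤ K ^ 6 := pow_le_pow_left₀ (by norm_num) hK 6
    linarith
  have h6 : (⌈K ^ 90⌉₊ : ℝ) ^ (-(1 / 20 : ℝ)) ≤ (K ^ 90) ^ (-(1 / 20 : ℝ)) :=
    Real.rpow_le_rpow_of_nonpos (by positivity) h2 (by norm_num)
  have h7 : (K ^ 90) ^ (-(1 / 20 : ℝ)) = 1 / K ^ 4 * (1 / K ^ (1 / 2 : ℝ)) := by
    have e1 : 1 / K ^ 4 = K ^ (-4 : ℝ) := by
      rw [Real.rpow_neg hK0.le, one_div]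
      congr 1
      exact (Real.rpow_natCast K 4).symm
    have e2 : 1 / K ^ (1 / 2 : ℝ) = K ^ (-(1 / 2) : ℝ) := by
      rw [Real.rpow_neg hK0.le, one_div (K ^ (1 / 2 : ℝ))]
    rw [e1, e2, ← Real.rpow_natCast K 90, ← Real.rpow_mul hK0.le, ← Real.rpow_add hK0]
    norm_num
  have h8 : 200 * C2 ≤ K ^ (1 / 2 : ℝ) := by
    rw [← Real.sqrt_eq_rpow]
    exact Real.le_sqrt_of_sq_le hKC
  have h9 : 100 * C2 * (1 / K ^ (1 / 2 : ℝ)) ≤ 1 / 2 := by
    have : 0 < K ^ (1 / 2 : ℝ) := Real.rpow_pos_of_pos hK0 _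
    rw [mul_one_div, div_le_iff₀ this]
    linarith
  have hmK : 0 ≤ m / K ^ 4 := by positivity
  have h10 : 100 * (C2 * m) * (⌈K ^ 90⌉₊ : ℝ) ^ (-(1 / 20 : ℝ)) ≤ m / K ^ 4 * (1 / 2) := by
    calc 100 * (C2 * m) * (⌈K ^ 90⌉₊ : ℝ) ^ (-(1 / 20 : ℝ))
        ≤ 100 * (C2 * m) * (1 / K ^ 4 * (1 / K ^ (1 / 2 : ℝ))) := by
          rw [← h7]
          exact mul_le_mul_of_nonneg_left h6 (by positivity)
      _ = m / K ^ 4 * (100 * C2 * (1 / K ^ (1 / 2 : ℝ))) := by ring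
      _ ≤ m / K ^ 4 * (1 / 2) := mul_le_mul_of_nonneg_left h9 hmK
  have h11 : m / K ^ 100 * (6 * K ^ 90) ≤ m / K ^ 4 * (1 / 2) := by
    rw [h4]
    exact mul_le_mul_of_nonneg_left h5 hmK
  linarith

/-- 11. one step down the tower -/
theorem st_step (h8 : ST_SAMPLES) (h9 : ST_PACK) (h10 : ST_GREEDY) : ST_STEP := by
  intro γ κ C hγ0 hγ1 hκ0 hκ1 hC
  obtain ⟨K8, h8⟩ := h8 γ κ C hγ0 hγ1 hκ0 hκ1 hC
  obtain ⟨C2, Rp, hC2, hRp, h9⟩ := h9 γ κ C hγ0 hγ1 hκ0 hκ1 hC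
  refine ⟨max (max K8 200) (max (20 / γ) (max Rp ((200 * C2) ^ 2))), ?_⟩
  intro K hK ι _ P Z S g m hP hm hpc hKm hSZ hS
  have hK8 : K8 ≤ K := le_trans (le_trans (le_max_left _ _) (le_max_left _ _)) hK
  have hK200 : 200 ≤ K := le_trans (le_trans (le_max_right _ _) (le_max_left _ _)) hK
  have hKγ : 20 / γ ≤ K := le_trans (le_trans (le_max_left _ _) (le_max_right _ _)) hK
  have hKR : (Rp : ℝ) ≤ K :=
    le_trans (le_trans (le_trans (le_max_left _ _) (le_max_right _ _)) (le_max_right _ _)) hK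
  have hKC : (200 * C2) ^ 2 ≤ K :=
    le_trans (le_trans (le_trans (le_max_right _ _) (le_max_right _ _)) (le_max_right _ _)) hK
  have hm0 : 0 < m := by linarith
  have hK0 : 0 < K := by linarith
  obtain ⟨z, S', hS'Z, hzS', hS'c, hlc, hvis, hdet⟩ := h8 K hK8 ι P Z S g m hP hm hpc hKm hSZ hS
  set T : Finset ι := S' ∪ univ.biUnion (fun i => vis P K (z i)) with hT
  -- balls without a point of `T`
  have hfree : ∀ s ∈ S, ∀ r : ℕ, Disjoint (ball P K Z s r) T →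
      κ * (nu g (ball P K Z s r)) ^ (19 / 20 : ℝ)
          ≤ II P g (ball P K Z s r) (Z \ ball P K Z s r) ∧
        II P g (ball P K Z s r) (Z \ ball P K Z s r) / 8 < near P K Z g (ball P K Z s r) := by
    intro s hs r hd
    have h1 := hdet s hs r hd
    unfold Detectable at h1
    push Not at h1
    have hsub : ball P K Z s r ⊆ Z := ball_subset (hSZ hs) r
    refine ⟨?_, h1.2⟩
    apply link_half hγ0 hγ1 hpc.low hpc.link hsub ball_nonempty
    have h2 : nu g (ball P K Z s r) ≤ l1 g (ball P K Z s r) / γ :=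
      nu_le_l1 hγ0 hγ1 fun i hi => hpc.low i (hsub hi)
    have h3 : l1 g (ball P K Z s r) / γ ≤ Real.exp (K / 8) / γ :=
      div_le_div_of_nonneg_right h1.1.le hγ0.le
    have h4 : Real.exp (K / 3) < m := by
      have : K / 3 < Real.log m := by linarith
      calc Real.exp (K / 3) < Real.exp (Real.log m) := Real.exp_lt_exp.2 this
        _ = m := Real.exp_log hm0
    have h5 : Real.exp (K / 8) / γ ≤ Real.exp (K / 3) / 4 := by
      have h6 : Real.exp (K / 3) = Real.exp (K / 8) * Real.exp (5 * K / 24) := by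
        rw [← Real.exp_add]; congr 1; ring
      have h7 : 5 * K / 24 + 1 ≤ Real.exp (5 * K / 24) := Real.add_one_le_exp _
      have h8 : 4 / γ ≤ 5 * K / 24 := by
        have : 4 / γ = 20 / γ / 5 := by ring
        rw [this]
        have : 0 < 20 / γ := by positivity
        linarith
      have h9 : 4 / γ ≤ Real.exp (5 * K / 24) := by linarith
      rw [h6]
      have h10 : Real.exp (K / 8) / γ = Real.exp (K / 8) * (4 / γ) / 4 := by ring
      rw [h10]
      have := mul_le_mul_of_nonneg_left h9 (Real.exp_pos (K / 8)).le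
      linarith
    have h6 := hpc.nul
    linarith
  have hreach : ∀ s ∈ S, ∃ r : ℕ, ¬ Disjoint (ball P K Z s r) T := by
    intro s hs
    by_contra hcon
    push Not at hcon
    obtain ⟨r, hr⟩ := exists_bd_empty (P := P) (K := K) (hSZ hs)
    obtain ⟨h1, h2⟩ := hfree s hs r (hcon r)
    have h3 : near P K Z g (ball P K Z s r) = 0 := by
      unfold near
      rw [hr, sum_empty]
    have h4 : γ ≤ nu g (ball P K Z s r) :=
      nu_ge hγ0 hγ1 ball_nonempty fun i hi => hpc.low i (ball_subset (hSZ hs) r hi)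
    have h5 : 0 < κ * (nu g (ball P K Z s r)) ^ (19 / 20 : ℝ) :=
      mul_pos hκ0 (Real.rpow_pos_of_pos (by linarith) _)
    rw [h3] at h2
    linarith
  have hR0 : Rp ≤ ⌈K ^ 90⌉₊ := by
    have h1 : (Rp : ℝ) ≤ K ^ 90 := by
      refine hKR.trans ?_
      calc K = K ^ 1 := (pow_one K).symm
        _ ≤ K ^ 90 := pow_le_pow_right₀ (by linarith) (by norm_num)
    exact_mod_cast h1.trans (Nat.le_ceil _)
  obtain ⟨W, hSW, -, hrt, hW⟩ := h10 ι P K Z S T (C2 * m) ⌈K ^ 90⌉₊ hP.symm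
    (le_trans hRp hR0) (by positivity) hSZ hreach (by
      intro R A hR hA hdis hT2
      refine h9 ι P K Z A g m R hP hm hpc (hR0.trans hR) (hA.trans hSZ) hdis ?_
      intro a ha r hr
      exact hfree a (hA ha) r (disjoint_of_subset_left (ball_mono (by omega)) (hT2 a ha)))
  refine ⟨z, S', W, hS'Z, hzS', hS'c, hlc, ?_, hSW, ?_, hrt⟩
  · -- number of points of `T`
    have h1 : (#T : ℝ) ≤ (#S' : ℝ) + ∑ i : Fin ⌈64 * K⌉₊, (#(vis P K (z i)) : ℝ) := by
      have h2 : #T ≤ #S' + ∑ i : Fin ⌈64 * K⌉₊, #(vis P K (z i)) :=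
        (card_union_le _ _).trans (Nat.add_le_add_left card_biUnion_le _)
      exact_mod_cast h2
    have h2 : ∑ i : Fin ⌈64 * K⌉₊, (#(vis P K (z i)) : ℝ)
        ≤ (64 * K + 1) * (m * Real.exp (3 * K / 2)) := by
      calc ∑ i : Fin ⌈64 * K⌉₊, (#(vis P K (z i)) : ℝ)
          ≤ ∑ i : Fin ⌈64 * K⌉₊, m * Real.exp (3 * K / 2) := sum_le_sum fun i _ => hvis i
        _ = (⌈64 * K⌉₊ : ℝ) * (m * Real.exp (3 * K / 2)) := by
          rw [sum_const, card_univ, Fintype.card_fin, nsmul_eq_mul]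
        _ ≤ (64 * K + 1) * (m * Real.exp (3 * K / 2)) := by
          apply mul_le_mul_of_nonneg_right _ (by positivity)
          exact (Nat.ceil_lt_add_one (by positivity)).le
    have h3 : Real.exp (-(K / 16)) ≤ Real.exp (3 * K / 2) := Real.exp_le_exp.2 (by linarith)
    have h4 : 64 * K + 2 ≤ Real.exp (K / 2) := by
      have h5 : Real.exp (K / 2) = Real.exp (K / 6) ^ 3 := by
        rw [← Real.exp_nat_mul]; congr 1; push_cast; ring
      have h6 : K / 6 ≤ Real.exp (K / 6) := by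
        have := Real.add_one_le_exp (K / 6)
        linarith
      have h7 : (K / 6) ^ 3 ≤ Real.exp (K / 6) ^ 3 := pow_le_pow_left₀ (by positivity) h6 3
      have h8 : 64 * K + 2 ≤ (K / 6) ^ 3 := by
        have h9 : (200 : ℝ) ^ 2 ≤ K ^ 2 := pow_le_pow_left₀ (by norm_num) hK200 2
        have h10 : (K / 6) ^ 3 = K * K ^ 2 / 216 := by ring
        rw [h10]
        nlinarith
      rw [h5]
      linarith
    have h5 : Real.exp (2 * K) = Real.exp (3 * K / 2) * Real.exp (K / 2) := by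
      rw [← Real.exp_add]; congr 1; ring
    have h6 : 0 < Real.exp (3 * K / 2) := Real.exp_pos _
    calc (#T : ℝ) ≤ m * Real.exp (-(K / 16)) + (64 * K + 1) * (m * Real.exp (3 * K / 2)) := by
          linarith
      _ ≤ m * Real.exp (3 * K / 2) + (64 * K + 1) * (m * Real.exp (3 * K / 2)) := by
          have := mul_le_mul_of_nonneg_left h3 hm0.le
          linarith
      _ = m * Real.exp (3 * K / 2) * (64 * K + 2) := by ring
      _ ≤ m * Real.exp (3 * K / 2) * Real.exp (K / 2) :=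
          mul_le_mul_of_nonneg_left h4 (by positivity)
      _ = m * Real.exp (2 * K) := by rw [h5]; ring
  · refine hW.trans ?_
    exact forest_num (by linarith) hKC hC2 hm0.le hS

end

end Pool.Agent.Helper81.ZS
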