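import Pool.Agent.Helper38.ZS.Stmts

/-!
# Balls and weights: common lemmas
-/

namespace Pool.Agent.Helper81.ZS

open Finset
open scoped Classical
open Pool.Agent.Helper38.ZS

noncomputable section

variable {ι : Type}

/-! ## balls -/

theorem bd_subset {P : ι → ι → ℝ} {K : ℝ} {Z B : Finset ι} : bd P K Z B ⊆ Z := by
  intro l hl
  rw [bd, mem_filter, mem_sdiff] at hl
  exact hl.1.1

theorem grow_mono {P : ι → ι → ℝ} {K : ℝ} {Z B B' : Finset ι} (h : B ⊆ B') :
    grow P K Z B ⊆ grow P K Z B' := by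
  intro l hl
  rw [grow, mem_union] at hl ⊢
  rcases hl with hl | hl
  · exact Or.inl (h hl)
  · by_cases hB : l ∈ B'
    · exact Or.inl hB
    · right
      rw [bd, mem_filter, mem_sdiff] at hl ⊢
      obtain ⟨⟨h1, h2⟩, k, h3, h4⟩ := hl
      exact ⟨⟨h1, hB⟩, k, h h3, h4⟩

theorem ball_zero {P : ι → ι → ℝ} {K : ℝ} {Z : Finset ι} {s : ι} :
    ball P K Z s 0 = {s} := rfl

theorem ball_succ {P : ι → ι → ℝ} {K : ℝ} {Z : Finset ι} {s : ι} {r : ℕ} :
    ball P K Z s (r + 1) = grow P K Z (ball P K Z s r) := by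
  unfold ball
  rw [Function.iterate_succ_apply']

theorem ball_sub_succ {P : ι → ι → ℝ} {K : ℝ} {Z : Finset ι} {s : ι} {r : ℕ} :
    ball P K Z s r ⊆ ball P K Z s (r + 1) := by
  rw [ball_succ, grow]
  exact subset_union_left

theorem ball_mono {P : ι → ι → ℝ} {K : ℝ} {Z : Finset ι} {s : ι} {r t : ℕ} (h : r ≤ t) :
    ball P K Z s r ⊆ ball P K Z s t := by
  induction h with
  | refl => exact Subset.refl _
  | step _ ih => exact ih.trans ball_sub_succ

theorem mem_ball_self {P : ι → ι → ℝ} {K : ℝ} {Z : Finset ι} {s : ι} {r : ℕ} :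
    s ∈ ball P K Z s r := by
  apply ball_mono (Nat.zero_le r)
  rw [ball_zero]
  exact mem_singleton_self s

theorem ball_nonempty {P : ι → ι → ℝ} {K : ℝ} {Z : Finset ι} {s : ι} {r : ℕ} :
    (ball P K Z s r).Nonempty := ⟨s, mem_ball_self⟩

theorem ball_subset {P : ι → ι → ℝ} {K : ℝ} {Z : Finset ι} {s : ι} (hs : s ∈ Z) (r : ℕ) :
    ball P K Z s r ⊆ Z := by
  induction r with
  | zero =>
    rw [ball_zero]
    exact singleton_subset_iff.2 hs
  | succ r ih =>
    rw [ball_succ, grow]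
    exact union_subset ih bd_subset

theorem ball_comp {P : ι → ι → ℝ} {K : ℝ} {Z : Finset ι} {a x : ι} {r : ℕ} (t : ℕ)
    (h : x ∈ ball P K Z a r) : ball P K Z x t ⊆ ball P K Z a (r + t) := by
  induction t with
  | zero =>
    rw [ball_zero]
    exact singleton_subset_iff.2 h
  | succ t ih =>
    rw [ball_succ, ← add_assoc, ball_succ]
    exact grow_mono ih

theorem ball_symm {P : ι → ι → ℝ} {K : ℝ} {Z : Finset ι} (hP : ∀ i j, P i j = P j i)
    {k : ι} (hk : k ∈ Z) : ∀ (r : ℕ) (x : ι), x ∈ ball P K Z k r → k ∈ ball P K Z x r := by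
  intro r
  induction r with
  | zero =>
    intro x hx
    rw [ball_zero, mem_singleton] at hx
    rw [hx]
    exact mem_ball_self
  | succ r ih =>
    intro x hx
    rw [ball_succ, grow, mem_union] at hx
    rcases hx with hx | hx
    · exact ball_sub_succ (ih x hx)
    · rw [bd, mem_filter, mem_sdiff] at hx
      obtain ⟨⟨hxZ, hxn⟩, y, hy, hadj⟩ := hx
      have h1 : y ∈ ball P K Z x 1 := by
        rw [show (1 : ℕ) = 0 + 1 from rfl, ball_succ, ball_zero, grow, mem_union]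
        by_cases hyx : y = x
        · left; rw [hyx]; exact mem_singleton_self x
        · right
          rw [bd, mem_filter, mem_sdiff, mem_singleton]
          refine ⟨⟨ball_subset hk r hy, hyx⟩, x, mem_singleton_self x, ?_⟩
          unfold Adj at hadj ⊢
          rw [hP y x]
          exact hadj
      have h2 := ball_comp r h1 (ih y hy)
      rw [add_comm] at h2
      exact h2

/-- two balls of radius `R` which meet -/
theorem mem_ball_two {P : ι → ι → ℝ} {K : ℝ} {Z : Finset ι} (hP : ∀ i j, P i j = P j i)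
    {a k : ι} (hk : k ∈ Z) {R : ℕ} (h : ¬ Disjoint (ball P K Z k R) (ball P K Z a R)) :
    k ∈ ball P K Z a (2 * R) := by
  rw [not_disjoint_iff] at h
  obtain ⟨x, h1, h2⟩ := h
  rw [two_mul]
  exact ball_comp R h2 (ball_symm hP hk R x h1)

/-- balls cannot grow for ever -/
theorem exists_bd_empty {P : ι → ι → ℝ} {K : ℝ} {Z : Finset ι} {s : ι} (hs : s ∈ Z) :
    ∃ r : ℕ, bd P K Z (ball P K Z s r) = ∅ := by
  by_contra hcon
  push Not at hcon
  have key : ∀ r : ℕ, r + 1 ≤ #(ball P K Z s r) := by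
    intro r
    induction r with
    | zero => rw [ball_zero, card_singleton]
    | succ r ih =>
      have h1 : Disjoint (ball P K Z s r) (bd P K Z (ball P K Z s r)) := by
        rw [disjoint_left]
        intro l h1 h2
        rw [bd, mem_filter, mem_sdiff] at h2
        exact h2.1.2 h1
      have h2 : 0 < #(bd P K Z (ball P K Z s r)) :=
        card_pos.2 (nonempty_iff_ne_empty.2 (hcon r).ne_empty)
      rw [ball_succ, grow, card_union_of_disjoint h1]
      omega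
  have h1 := key (#Z)
  have h2 := card_le_card (ball_subset (P := P) (K := K) hs (#Z))
  omega

/-! ## weights -/

theorem nu_nonneg (g : ι → ℝ) (X : Finset ι) : 0 ≤ nu g X :=
  sum_nonneg fun i _ => Real.rpow_nonneg (abs_nonneg _) _

theorem nu_mono (g : ι → ℝ) {X Y : Finset ι} (h : X ⊆ Y) : nu g X ≤ nu g Y :=
  sum_le_sum_of_subset_of_nonneg h fun i _ _ => Real.rpow_nonneg (abs_nonneg _) _

theorem nu_sdiff (g : ι → ℝ) {X Z : Finset ι} (h : X ⊆ Z) :
    nu g (Z \ X) = nu g Z - nu g X := by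
  have := sum_sdiff (f := fun i => |g i| ^ (19 / 20 : ℝ)) h
  unfold nu
  linarith

theorem nu_disj (g : ι → ℝ) {X Y Z : Finset ι} (hX : X ⊆ Z) (hY : Y ⊆ Z) (h : Disjoint X Y) :
    nu g X + nu g Y ≤ nu g Z := by
  have h1 : nu g (X ∪ Y) = nu g X + nu g Y := sum_union h
  rw [← h1]
  exact nu_mono g (union_subset hX hY)

theorem rpow_ge_gamma {γ y : ℝ} (h0 : 0 < γ) (h1 : γ ≤ 1) (hy : γ ≤ y) :
    γ ≤ y ^ (19 / 20 : ℝ) := by
  calc γ = γ ^ (1 : ℝ) := (Real.rpow_one γ).symm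
    _ ≤ γ ^ (19 / 20 : ℝ) := Real.rpow_le_rpow_of_exponent_ge h0 h1 (by norm_num)
    _ ≤ y ^ (19 / 20 : ℝ) := Real.rpow_le_rpow h0.le hy (by norm_num)

theorem nu_ge {γ : ℝ} {g : ι → ℝ} {X : Finset ι} (h0 : 0 < γ) (h1 : γ ≤ 1)
    (hX : X.Nonempty) (hlow : ∀ i ∈ X, γ ≤ |g i|) : γ ≤ nu g X := by
  obtain ⟨i, hi⟩ := hX
  refine (rpow_ge_gamma h0 h1 (hlow i hi)).trans ?_
  exact single_le_sum (f := fun i => |g i| ^ (19 / 20 : ℝ))
    (fun i _ => Real.rpow_nonneg (abs_nonneg _) _) hi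

theorem l1_nonneg (g : ι → ℝ) (X : Finset ι) : 0 ≤ l1 g X := sum_nonneg fun i _ => abs_nonneg _

theorem l1_mono (g : ι → ℝ) {X Y : Finset ι} (h : X ⊆ Y) : l1 g X ≤ l1 g Y :=
  sum_le_sum_of_subset_of_nonneg h fun i _ _ => abs_nonneg _

/-- `nu ≤ l1 / γ` -/
theorem nu_le_l1 {γ : ℝ} {g : ι → ℝ} {X : Finset ι} (h0 : 0 < γ) (h1 : γ ≤ 1)
    (hlow : ∀ i ∈ X, γ ≤ |g i|) : nu g X ≤ l1 g X / γ := by
  unfold nu l1
  rw [sum_div]
  apply sum_le_sum
  intro i hi
  have hy := hlow i hi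
  have hy0 : 0 < |g i| := h0.trans_le hy
  rw [le_div_iff₀ h0]
  have h2 : |g i| ^ (19 / 20 : ℝ) * |g i| ^ (1 / 20 : ℝ) = |g i| := by
    rw [← Real.rpow_add hy0]
    norm_num
  have h3 : γ ≤ |g i| ^ (1 / 20 : ℝ) := by
    calc γ = γ ^ (1 : ℝ) := (Real.rpow_one γ).symm
      _ ≤ γ ^ (1 / 20 : ℝ) := Real.rpow_le_rpow_of_exponent_ge h0 h1 (by norm_num)
      _ ≤ |g i| ^ (1 / 20 : ℝ) := Real.rpow_le_rpow h0.le hy (by norm_num)
  calc |g i| ^ (19 / 20 : ℝ) * γ ≤ |g i| ^ (19 / 20 : ℝ) * |g i| ^ (1 / 20 : ℝ) :=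
        mul_le_mul_of_nonneg_left h3 (Real.rpow_nonneg hy0.le _)
    _ = |g i| := h2

/-- `l1 ≤ nu ^ (20/19)` -/
theorem l1_le_nu (g : ι → ℝ) (X : Finset ι) : l1 g X ≤ (nu g X) ^ (20 / 19 : ℝ) := by
  rcases (nu_nonneg g X).eq_or_lt with h0 | h0
  · have h1 : ∀ i ∈ X, |g i| ^ (19 / 20 : ℝ) = 0 := by
      intro i hi
      exact (sum_eq_zero_iff_of_nonneg
        (fun i _ => Real.rpow_nonneg (abs_nonneg (g i)) _)).1 h0.symm i hi
    have h2 : l1 g X = 0 := by
      unfold l1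
      apply sum_eq_zero
      intro i hi
      have := h1 i hi
      rw [Real.rpow_eq_zero (abs_nonneg _) (by norm_num)] at this
      exact this
    rw [h2]
    exact Real.rpow_nonneg (nu_nonneg g X) _
  · have h1 : ∀ i ∈ X, |g i| ≤ |g i| ^ (19 / 20 : ℝ) * (nu g X) ^ (1 / 19 : ℝ) := by
      intro i hi
      rcases (abs_nonneg (g i)).eq_or_lt with h2 | h2
      · rw [← h2, Real.zero_rpow (by norm_num), zero_mul]
      · have h3 : |g i| ^ (19 / 20 : ℝ) ≤ nu g X :=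
          single_le_sum (f := fun i => |g i| ^ (19 / 20 : ℝ))
            (fun i _ => Real.rpow_nonneg (abs_nonneg _) _) hi
        have h4 : |g i| = |g i| ^ (19 / 20 : ℝ) * (|g i| ^ (19 / 20 : ℝ)) ^ (1 / 19 : ℝ) := by
          rw [← Real.rpow_mul h2.le, ← Real.rpow_add h2]
          norm_num
        calc |g i| = |g i| ^ (19 / 20 : ℝ) * (|g i| ^ (19 / 20 : ℝ)) ^ (1 / 19 : ℝ) := h4
          _ ≤ |g i| ^ (19 / 20 : ℝ) * (nu g X) ^ (1 / 19 : ℝ) :=
            mul_le_mul_of_nonneg_left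
              (Real.rpow_le_rpow (Real.rpow_nonneg h2.le _) h3 (by norm_num))
              (Real.rpow_nonneg h2.le _)
    calc l1 g X ≤ ∑ i ∈ X, |g i| ^ (19 / 20 : ℝ) * (nu g X) ^ (1 / 19 : ℝ) := sum_le_sum h1
      _ = nu g X * (nu g X) ^ (1 / 19 : ℝ) := by rw [← sum_mul]; rfl
      _ = (nu g X) ^ (20 / 19 : ℝ) := by
        nth_rewrite 1 [← Real.rpow_one (nu g X)]
        rw [← Real.rpow_add h0]
        norm_num

/-- nonempty proper parts are linked at least by `κ γ` -/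
theorem link_ge {P : ι → ι → ℝ} {γ κ : ℝ} {g : ι → ℝ} {Z X : Finset ι} (h0 : 0 < γ)
    (h1 : γ ≤ 1) (hκ : 0 < κ) (hlow : ∀ i ∈ Z, γ ≤ |g i|) (hL : Link P κ Z g)
    (hX : X ⊆ Z) (hne : X.Nonempty) (hZ : X ≠ Z) : κ * γ ≤ II P g X (Z \ X) := by
  refine le_trans ?_ (hL X hX hne hZ)
  apply mul_le_mul_of_nonneg_left _ hκ.le
  apply rpow_ge_gamma h0 h1
  apply le_min
  · exact nu_ge h0 h1 hne fun i hi => hlow i (hX hi)
  · apply nu_ge h0 h1
    · rw [sdiff_nonempty]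
      intro h
      exact hZ (Subset.antisymm hX h)
    · intro i hi
      exact hlow i (mem_sdiff.1 hi).1

/-- parts of at most half the weight -/
theorem link_half {P : ι → ι → ℝ} {γ κ : ℝ} {g : ι → ℝ} {Z X : Finset ι} (h0 : 0 < γ)
    (h1 : γ ≤ 1) (hlow : ∀ i ∈ Z, γ ≤ |g i|) (hL : Link P κ Z g)
    (hX : X ⊆ Z) (hne : X.Nonempty) (hh : 2 * nu g X ≤ nu g Z) :
    κ * (nu g X) ^ (19 / 20 : ℝ) ≤ II P g X (Z \ X) := by
  have h2 : γ ≤ nu g X := nu_ge h0 h1 hne fun i hi => hlow i (hX hi)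
  have hZ : X ≠ Z := by
    intro h
    rw [h] at hh h2
    linarith
  have h3 := hL X hX hne hZ
  rw [min_eq_left] at h3
  · exact h3
  · rw [nu_sdiff g hX]
    linarith

end

end Pool.Agent.Helper81.ZS
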